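import Pool.Agent.Q138.SN.Main
import Pool.Agent.Q138.SN.Euc

/-!
# MP_085bfa_gt: the structural number for separable metrizable zero-dimensional extensions

`IndLT n X` (`Pool.Agent.Q138.SN.Dec`) says that the small inductive dimension of `X` is less than
`n`: `IndLT 0 X` holds only for the empty space, and `IndLT (n + 1) X` says that for every open `U`
and `x ∈ U` there is an open `V` with `x ∈ V ⊆ U` whose boundary satisfies `IndLT n`.

Outline of the proof. A separable metrizable space with `ind X = n` is the union of `n + 1`
zero-dimensional sets `Z_i`. There is a countable base of `X` whose boundaries miss `Z_i`. The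
topology `t_i` for which the members of this base are clopen is induced by an injective map to the
Cantor set, and it has the same neighbourhoods of the points of `Z_i` as the given topology.
-/

set_option autoImplicit false

open Set Topology TopologicalSpace Pool.Agent.Q138.SN

namespace Pool.Agent.Results.MP_085bfa_gt.SeparableExtensions

universe u

/-- `ind (X, t) = n` -/
def IndEq (n : ℕ) (X : Type u) (t : TopologicalSpace X) : Prop :=
  @IndLT (n + 1) X t ∧ ¬ @IndLT n X t

/-- the class `SM₀` of the separable metrizable spaces `Z` with `ind Z = 0` -/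
def SM0 {X : Type u} (t : TopologicalSpace X) : Prop :=
  @SeparableSpace X t ∧ @MetrizableSpace X t ∧ IndEq 0 X t

/-- the topology `τ` is the intersection of the family `t` of extensions of `τ` which are in the
class `A` -/
def IsInter {X : Type u} (A : TopologicalSpace X → Prop) (τ : TopologicalSpace X) {I : Type}
    (t : I → TopologicalSpace X) : Prop :=
  (∀ i, (∀ U : Set X, @IsOpen X τ U → @IsOpen X (t i) U) ∧ A (t i)) ∧
    ∀ U : Set X, @IsOpen X τ U ↔ ∀ i, @IsOpen X (t i) U

/-- the structural number `Sn^A (X, τ)`: the least cardinal number of a family of extensions in `A`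
with intersection `τ`, and `∞` if there is no such family -/
noncomputable def Sn {X : Type} (A : TopologicalSpace X → Prop) (τ : TopologicalSpace X) :
    WithTop Cardinal.{0} :=
  sInf {κ | ∃ (I : Type) (t : I → TopologicalSpace X), IsInter A τ t ∧
    κ = ((Cardinal.mk I : Cardinal.{0}) : WithTop Cardinal.{0})}

theorem of_dec {n : ℕ} {X : Type} [hne : Nonempty X] (τ : TopologicalSpace X) [MetrizableSpace X]
    [SecondCountableTopology X] (h : Dec n X) :
    (∃ t : Fin n → TopologicalSpace X, IsInter SM0 τ t) ∧ Sn SM0 τ ≤ ((n : Cardinal.{0}) :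
      WithTop Cardinal.{0}) := by
  have h1 : ∃ t : Fin n → TopologicalSpace X, IsInter SM0 τ t := by
    obtain ⟨t, ht, hU⟩ := main h
    refine ⟨t, fun i => ⟨(ht i).1, ?_, (ht i).2.2.1, ?_, ?_⟩, hU⟩
    · exact @SecondCountableTopology.to_separableSpace X (t i) (ht i).2.1
    · exact @ZD.indLT X (t i) (ht i).2.2.2
    · intro h0
      have h0' : IsEmpty X := h0
      obtain ⟨x⟩ := hne
      exact h0'.false x
  refine ⟨h1, ?_⟩
  obtain ⟨t, ht⟩ := h1
  exact sInf_le ⟨Fin n, t, ht, by simp⟩

/-- **(1)** Let `(X, τ)` be a separable metrizable space with `ind (X, τ) = n`. Then `τ` is the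
intersection of `n + 1` extensions of `τ` which are separable, metrizable and zero-dimensional; so
`Sn^{SM₀}(X, τ) ≤ n + 1`. **(2)** The same for `ℝⁿ` with the Euclidean topology; in particular
`Sn^{SM₀}(ℝ²) ≤ 3`. -/
theorem result :
    (∀ (n : ℕ) (X : Type) (τ : TopologicalSpace X), @SeparableSpace X τ → @MetrizableSpace X τ →
      IndEq n X τ → (∃ t : Fin (n + 1) → TopologicalSpace X, IsInter SM0 τ t) ∧
        Sn SM0 τ ≤ (((n + 1 : ℕ) : Cardinal.{0}) : WithTop Cardinal.{0})) ∧
    ∀ n : ℕ, (∃ t : Fin (n + 1) → TopologicalSpace (EuclideanSpace ℝ (Fin n)),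
        IsInter SM0 inferInstance t) ∧
      Sn SM0 (inferInstance : TopologicalSpace (EuclideanSpace ℝ (Fin n))) ≤
        (((n + 1 : ℕ) : Cardinal.{0}) : WithTop Cardinal.{0}) := by
  refine ⟨fun n X τ hs hm hn => ?_, fun n => ?_⟩
  · let _ := metrizableSpaceMetric X
    have h2 : SecondCountableTopology X := UniformSpace.secondCountable_of_separable X
    have hne : Nonempty X := by
      by_contra h
      rw [not_nonempty_iff] at h
      exact hn.2 (IndLT.of_isEmpty n X)
    exact of_dec τ (dec_of_indLT (n + 1) X hn.1)
  · exact of_dec _ (dec_euclid n)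

end Pool.Agent.Results.MP_085bfa_gt.SeparableExtensions
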